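import Pool.Agent.Lib.MP_328240_co.H84Free

/-!
The case `n = 2` for `K < 3 / 2`, with no power of the size of the set lost.
-/

namespace Pool.Agent.Results.MP_328240_co.EpsFree

open Pool.Agent.Lib.MP_328240_co

universe u

theorem result : ∃ c : ℝ, 0 < c ∧ ∀ (G : Type u) [AddCommGroup G] (A : Finset G), A.Nonempty →
    ∀ η : ℝ, 0 < η → rho 3 A ≤ (9 / 4 - η) * rho 2 A ^ 2 →
      ∃ H ⊆ A, c * η ^ 2 * rho 2 A ≤ H.card ∧ c * η ^ 6 * (H.card : ℝ) ^ 3 ≤ energy 2 H := by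
  refine ⟨1 / (3 * 270 ^ 6), by positivity, fun G _ A hA η hη h => ?_⟩
  obtain ⟨H, h1, h2, h3⟩ := Free.eps_free A hA hη h
  have h4 : 0 ≤ η ^ 2 * rho 2 A := by
    unfold rho
    positivity
  exact ⟨H, h1, by linarith, by linarith⟩

end Pool.Agent.Results.MP_328240_co.EpsFree
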