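import Mathlib
import Pool.Agent.Lib.MP_328240_co.H27Main

/-!
The structure theorem for real exponents: every moment of order above six suffices.
-/

namespace Pool.Agent.Results.MP_328240_co.RealExponent

open Pool.Agent.Lib.MP_328240_co MeasureTheory

universe u

theorem result : ∀ s t : ℝ, 1 < s → s < t → 3 < t → ∀ ε : ℝ, 0 < ε → ε < 1 →
    ∃ c c' : ℝ, 0 < c ∧ 0 < c' ∧ ∀ (G : Type u) [AddCommGroup G] [TopologicalSpace G]
      [DiscreteTopology G] [MeasurableSpace (PontryaginDual (Multiplicative G))]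
      [BorelSpace (PontryaginDual (Multiplicative G))]
      (μ : Measure (PontryaginDual (Multiplicative G))) [μ.IsHaarMeasure] [IsProbabilityMeasure μ]
      (A : Finset G), A.Nonempty → ∀ K : ℝ, 1 ≤ K →
      rhoR μ t A ^ ((s - 1) / (t - 1)) < K * rhoR μ s A → ∀ m : ℕ, 1 ≤ m →
      ∃ H : Finset G, (∀ x ∈ H, ∃ a : Fin m → G, (∀ i, a i ∈ A) ∧ ∑ i, a i = x) ∧
        rhoR μ s A ^ (1 / (s - 1)) ≤ K ^ c * H.card ∧
        (H.card : ℝ) ^ 3 ≤ (A.card : ℝ) ^ ε * K ^ c' * energy 2 H :=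
  fun s t hs hst ht ε hε _ => real_exponent s t hs hst ht ε hε

end Pool.Agent.Results.MP_328240_co.RealExponent
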