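import Mathlib
import Pool.Agent.Lib.MP_328240_co.H73Main

/-!
The case `n = 2` of the question for every `K` bounded away from `3`.
-/

namespace Pool.Agent.Results.MP_328240_co.SmallK

open Pool.Agent.Lib.MP_328240_co

universe u

theorem result : ∀ K₀ : ℝ, K₀ < 3 → ∀ ε : ℝ, 0 < ε → ε < 1 →
    ∃ c c' : ℝ, 0 < c ∧ 0 < c' ∧ ∀ (G : Type u) [AddCommGroup G] (A : Finset G), A.Nonempty →
      ∀ K : ℝ, 1 ≤ K → K ≤ K₀ → rho 3 A ^ ((1 : ℝ) / 2) < K * rho 2 A →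
      ∃ H ⊆ A, rho 2 A ≤ K ^ c * H.card ∧
        (H.card : ℝ) ^ 3 ≤ (A.card : ℝ) ^ ε * K ^ c' * energy 2 H :=
  fun K₀ h ε hε _ => small_K K₀ h ε hε

end Pool.Agent.Results.MP_328240_co.SmallK
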