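import Mathlib
import Pool.Agent.Lib.MP_328240_co.H73Main

/-!
The conclusion of the case `n = 2`, with polynomial dependence on the proportion of solutions of
`a 1 + a 2 + a 3 = b 1 + b 2 + b 3` that have two middles in `A`.
-/

namespace Pool.Agent.Results.MP_328240_co.TwoMiddles

open Pool.Agent.Lib.MP_328240_co

universe u

theorem result : ∀ ε : ℝ, 0 < ε → ∃ c : ℝ, 0 < c ∧ ∀ (G : Type u) [AddCommGroup G]
    (A : Finset G), A.Nonempty → ∀ θ : ℝ, 0 < θ → θ * mids A 1 ≤ mids A 2 →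
    ∃ H ⊆ A, rho 2 A ≤ H.card ∧
      (H.card : ℝ) ^ 3 ≤ (A.card : ℝ) ^ ε * (2 / θ) ^ c * energy 2 H :=
  two_middles

end Pool.Agent.Results.MP_328240_co.TwoMiddles
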